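import Mathlib
import Pool.Agent.helper52.FS.SpecP

/-!
# Row LSM of project FS (MP_07c750_an): fractal Logvinenko-Sereda at the scale 1/M
-/

open MeasureTheory Set

open scoped Pointwise

set_option autoImplicit false

namespace Pool.Agent.FS

noncomputable section

theorem LSM_GP (M : ℕ) (hM : 1 ≤ M) (S : Finset ℤ) (a : ℤ → ℂ) (v : ℝ) :
    GP (4 * M) S a ((M : ℝ) • v) = tp S a v := by
  have hM0 : (0 : ℝ) < M := by exact_mod_cast hM
  unfold GP tp
  apply Finset.sum_congr rfl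
  intro k _
  have h1 : 2 * Real.pi * k / ((4 * M : ℕ) : ℝ) * ((M : ℝ) • v) = Real.pi * k * v / 2 := by
    rw [smul_eq_mul]
    push_cast
    field_simp
    ring
  rw [h1]

theorem LSM_proof (hLSP : LSP_stmt) : LSM_stmt := by
  intro c R2 hc hc1 hR2
  obtain ⟨K, R1, hK, hR, h⟩ := hLSP c R2 hc hc1 hR2
  refine ⟨K, R1, hK, hR, ?_⟩
  intro M S a E hM hE hper hcell hgap
  have hM0 : (0 : ℝ) < M := by exact_mod_cast hM
  have hMn : (M : ℝ) ≠ 0 := hM0.ne'
  have hP : ((4 * M : ℕ) : ℝ) = 4 * M := by push_cast; ring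
  have key := h (4 * M) S a {y : ℝ | y / M ∈ E} (by omega) ?_ ?_ ?_ ?_
  · -- the change of variables
    have e1 : (M : ℝ) • Icc (0 : ℝ) 4 = Icc (0 : ℝ) ((4 * M : ℕ) : ℝ) := by
      rw [hP]
      ext y
      rw [Set.mem_smul_set_iff_inv_smul_mem₀ hMn, smul_eq_mul, mem_Icc, mem_Icc, inv_mul_eq_div, div_le_iff₀ hM0, le_div_iff₀ hM0,
        zero_mul]
    have e2 : (M : ℝ) • (E ∩ Icc (0 : ℝ) 4) = {y : ℝ | y / M ∈ E} ∩ Icc (0 : ℝ) ((4 * M : ℕ) : ℝ) := by
      rw [Set.smul_set_inter₀ hMn, e1]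
      congr 1
      ext y
      rw [Set.mem_smul_set_iff_inv_smul_mem₀ hMn, smul_eq_mul, inv_mul_eq_div]
      rfl
    have f1 := Measure.setIntegral_comp_smul_of_pos (volume : Measure ℝ) (fun y => ‖GP (4 * M) S a y‖ ^ 2) (Icc (0 : ℝ) 4) hM0
    have f2 := Measure.setIntegral_comp_smul_of_pos (volume : Measure ℝ) (fun y => ‖GP (4 * M) S a y‖ ^ 2) (E ∩ Icc (0 : ℝ) 4) hM0
    simp only [LSM_GP M hM] at f1 f2
    rw [e1] at f1
    rw [e2] at f2
    rw [f1, f2, Module.finrank_self, pow_one, smul_eq_mul, smul_eq_mul]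
    have h3 := mul_le_mul_of_nonneg_left key (inv_nonneg.2 hM0.le)
    linarith
  · exact hE.preimage (measurable_id.div_const _)
  · intro y
    show (y + ((4 * M : ℕ) : ℝ)) / M ∈ E ↔ y / M ∈ E
    rw [hP, add_div, mul_div_assoc, div_self hMn, mul_one]
    exact hper _
  · intro m
    obtain ⟨x, hx1, hx2, hx3⟩ := hcell m
    refine ⟨M * x, ?_, ?_, ?_⟩
    · rw [div_le_iff₀ hM0] at hx1
      linarith
    · rw [le_div_iff₀ hM0] at hx2
      linarith
    · intro y hy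
      apply hx3
      obtain ⟨h1, h2⟩ := hy
      constructor
      · rw [lt_div_iff₀ hM0, sub_mul, div_mul_cancel₀ _ hMn]
        linarith
      · rw [div_lt_iff₀ hM0, add_mul, div_mul_cancel₀ _ hMn]
        linarith
  · intro R hR1 hR2' ξ
    obtain ⟨y, hy, hj⟩ := hgap (R * M) (mul_le_mul_of_nonneg_right hR1 hM0.le) (mul_le_mul_of_nonneg_right hR2' hM0.le) (ξ * M)
    obtain ⟨h1, h2⟩ := hy
    refine ⟨y / M, ⟨?_, ?_⟩, ?_⟩
    · rw [le_div_iff₀ hM0]
      exact h1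
    · rw [div_le_iff₀ hM0, add_mul]
      exact h2
    · intro k hk
      have h3 := hj k hk
      have h4 : 2 * Real.pi * k / ((4 * M : ℕ) : ℝ) - y / M = (Real.pi * k / 2 - y) / M := by
        rw [hP]
        field_simp
        ring
      rw [h4, abs_div, abs_of_pos hM0, le_div_iff₀ hM0]
      linarith

end

end Pool.Agent.FS
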