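/-
Row fs:CLU (MP_55808c_co, helper78's Spec): clusters.  Author: helper87.
-/
import Pool.Agent.helper78.FS.Spec

set_option autoImplicit false

namespace Pool.Agent.helper78.FS

open Finset Real

theorem CLU_symm {r : ℝ} {c : E3 → Fin 7} {Q : Finset E3} {R : ℝ} {x y : E3} (h : rel r c Q R x y) :
    rel r c Q R y x := by
  rcases h with h | ⟨h1, h2, h3⟩
  · exact Or.inl h.symm
  · refine Or.inr ⟨h2, h1, ?_⟩
    rcases h3 with ⟨q, hq, a, b⟩ | ⟨a, b, e, d⟩
    · exact Or.inl ⟨q, hq, b, a⟩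
    · exact Or.inr ⟨b, a, e.symm, by rwa [dist_comm]⟩

theorem CLU_trans {ε r : ℝ} {c : E3 → Fin 7} {Q : Finset E3} {R : ℝ} (hD : Dat ε r c Q R) {x y z : E3}
    (h : rel r c Q R x y) (h' : rel r c Q R y z) : rel r c Q R x z := by
  obtain ⟨hε, hG, hR, hQ, hS⟩ := hD
  rcases h with h | ⟨h1, h2, h3⟩
  · rw [h]; exact h'
  rcases h' with h' | ⟨h1', h2', h3'⟩
  · rw [← h']; exact Or.inr ⟨h1, h2, h3⟩
  refine Or.inr ⟨h1, h2', ?_⟩
  rcases h3 with ⟨q, hq, a, b⟩ | ⟨a, b, e, d⟩
  · rcases h3' with ⟨q', hq', a', b'⟩ | ⟨a', b', e', d'⟩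
    · have hqq : q = q' := by
        by_contra hne
        have h5 := hQ q hq q' hq' hne
        have h6 := dist_triangle_left q q' y
        linarith
      subst hqq
      exact Or.inl ⟨q, hq, a, b'⟩
    · exact absurd ⟨q, hq, b⟩ a'
  · rcases h3' with ⟨q', hq', a', b'⟩ | ⟨a', b', e', d'⟩
    · exact absurd ⟨q', hq', a'⟩ b
    · refine Or.inr ⟨a, b', e.trans e', ?_⟩
      by_contra hcon
      have hcon' : 1 ≤ dist x z := not_lt.1 hcon
      have h7 : 1 < dist x z := by
        by_contra h8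
        exact hG x z h1 h2' (by linarith) (by linarith) (e.trans e')
      exact b (hS y ⟨h2, x, z, h1, h2', e, e'.symm, d, d', h7⟩)

theorem CLU : CLU_stmt := by
  intro ε r c Q R hD
  let s : Setoid E3 :=
    ⟨rel r c Q R, ⟨fun x => Or.inl rfl, fun h => CLU_symm h, fun h h' => CLU_trans hD h h'⟩⟩
  refine ⟨fun x => (Quotient.mk s x).out, ?_, ?_⟩
  · intro x y
    constructor
    · intro h
      have h1 : Quotient.mk s x = Quotient.mk s y := by
        rw [← Quotient.out_eq (Quotient.mk s x), ← Quotient.out_eq (Quotient.mk s y)]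
        exact congrArg (Quotient.mk s) h
      exact Quotient.exact h1
    · intro h
      have h1 : Quotient.mk s x = Quotient.mk s y := Quotient.sound h
      show (Quotient.mk s x).out = (Quotient.mk s y).out
      rw [h1]
  · intro x
    have h1 : Quotient.mk s x = Quotient.mk s ((Quotient.mk s x).out) := (Quotient.out_eq _).symm
    exact Quotient.exact h1

end Pool.Agent.helper78.FS
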