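/-
Row fs:TRF (MP_55808c_co, helper78's Spec): links contain no triangle.  Author: helper87.
-/
import Pool.Agent.helper78.FS.Spec

set_option autoImplicit false

namespace Pool.Agent.helper78.FS

open Finset Real

theorem TRF : TRF_stmt := by
  intro hCYA V _ G Ω z hsym hCoc hMin v a b c hab hbc hac hva hvb hvc h1 h2 h3
  obtain ⟨hC1, hC2, hC3⟩ := hCYA V G
  obtain ⟨hz, hw, hmin⟩ := hMin
  have hQcard : ({v, a, b, c} : Finset V).card = 4 := by
    rw [card_insert_of_notMem, card_insert_of_notMem, card_insert_of_notMem, card_singleton]
    · simpa using hbc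
    · simp only [mem_insert, mem_singleton, not_or]
      exact ⟨hab, hac⟩
    · simp only [mem_insert, mem_singleton, not_or]
      exact ⟨hva, hvb, hvc⟩
  have k1 := (hz.1 _ h1).2
  have k2 := (hz.1 _ h2).2
  have k3 := (hz.1 _ h3).2
  have gva : G v a := k1 v (by simp) a (by simp) hva
  have gvb : G v b := k1 v (by simp) b (by simp) hvb
  have gab : G a b := k1 a (by simp) b (by simp) hab
  have gvc : G v c := k2 v (by simp) c (by simp) hvc
  have gbc : G b c := k2 b (by simp) c (by simp) hbc
  have gac : G a c := k3 a (by simp) c (by simp) hac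
  have hQ : Cliq G ({v, a, b, c} : Finset V) := by
    intro x hx y hy hxy
    simp only [mem_insert, mem_singleton] at hx hy
    rcases hx with rfl | rfl | rfl | rfl <;> rcases hy with rfl | rfl | rfl | rfl
    all_goals first
      | exact absurd rfl hxy
      | assumption
      | (apply hsym; assumption)
  generalize hQdef : ({v, a, b, c} : Finset V) = Q at hQcard hQ
  have hP := hC3 Q hQcard hQ
  have hwP : wt Ω (Q.powersetCard 3) = 0 := hCoc Q hQcard hQ
  have hle := hmin (symmDiff z (Q.powersetCard 3)) (hC1 _ _ hz hP) (by rw [hC2, hw, hwP, add_zero])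
  have hPcard : (Q.powersetCard 3).card = 4 := by
    rw [card_powersetCard, hQcard]
    rfl
  -- the three triangles
  have hsub : ({{v, a, b}, {v, b, c}, {v, a, c}} : Finset (Finset V)) ⊆ z ∩ Q.powersetCard 3 := by
    intro τ hτ
    simp only [mem_insert, mem_singleton] at hτ
    rw [mem_inter, mem_powersetCard]
    rcases hτ with rfl | rfl | rfl
    · refine ⟨h1, ?_, (hz.1 _ h1).1⟩
      rw [← hQdef]
      intro x hx
      simp only [mem_insert, mem_singleton] at hx ⊢
      tauto
    · refine ⟨h2, ?_, (hz.1 _ h2).1⟩
      rw [← hQdef]
      intro x hx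
      simp only [mem_insert, mem_singleton] at hx ⊢
      tauto
    · refine ⟨h3, ?_, (hz.1 _ h3).1⟩
      rw [← hQdef]
      intro x hx
      simp only [mem_insert, mem_singleton] at hx ⊢
      tauto
  have hcard3 : ({{v, a, b}, {v, b, c}, {v, a, c}} : Finset (Finset V)).card = 3 := by
    rw [card_insert_of_notMem, card_insert_of_notMem, card_singleton]
    · simp only [mem_singleton]
      intro h
      have hb : b ∈ ({v, a, c} : Finset V) := h ▸ (by simp)
      simp only [mem_insert, mem_singleton] at hb
      rcases hb with h | h | h
      · exact hvb h.symm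
      · exact hab h.symm
      · exact hbc h
    · simp only [mem_insert, mem_singleton, not_or]
      constructor
      · intro h
        have ha : a ∈ ({v, b, c} : Finset V) := h ▸ (by simp)
        simp only [mem_insert, mem_singleton] at ha
        rcases ha with h | h | h
        · exact hva h.symm
        · exact hab h
        · exact hac h
      · intro h
        have hb : b ∈ ({v, a, c} : Finset V) := h ▸ (by simp)
        simp only [mem_insert, mem_singleton] at hb
        rcases hb with h | h | h
        · exact hvb h.symm
        · exact hab h.symm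
        · exact hbc h
  have h3le : 3 ≤ (z ∩ Q.powersetCard 3).card := hcard3.symm.le.trans (card_le_card hsub)
  have e1 : (z \ Q.powersetCard 3).card + (z ∩ Q.powersetCard 3).card = z.card := card_sdiff_add_card_inter _ _
  have e2 : (Q.powersetCard 3 \ z).card + (Q.powersetCard 3 ∩ z).card = (Q.powersetCard 3).card := card_sdiff_add_card_inter _ _
  rw [inter_comm (Q.powersetCard 3) z] at e2
  have e3 : (symmDiff z (Q.powersetCard 3)).card ≤ (z \ Q.powersetCard 3).card + (Q.powersetCard 3 \ z).card := by
    have : symmDiff z (Q.powersetCard 3) = (z \ Q.powersetCard 3) ∪ (Q.powersetCard 3 \ z) := rfl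
    rw [this]
    exact card_union_le _ _
  omega

end Pool.Agent.helper78.FS
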