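import Pool.Agent.helper87.FS.Spec
import Pool.Agent.helper8.FS.DJI

set_option autoImplicit false

namespace Pool.Agent.FS

open Polynomial Matrix Pool.Agent.helper42.NS

open Classical in
theorem DELb_gen {R : Type*} [CommRing R] {n : ℕ} (M : Matrix (Fin n) (Fin n) R) (s : Fin n) (p : Fin n → Prop)
    (hp : ∀ i, p i ↔ i = s) :
    adjugate M s s = (M.toSquareBlockProp (fun i => ¬ p i)).det := by
  rw [adjugate_apply]
  obtain ⟨N, hN⟩ : ∃ N, N = M.updateRow s (Pi.single s 1) := ⟨_, rfl⟩
  rw [← hN]
  rw [Matrix.twoBlockTriangular_det' N p]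
  · have h3 : (N.toSquareBlockProp p) = 1 := by
      ext i j
      have hi : (i : Fin n) = s := (hp _).1 i.2
      have hj : (j : Fin n) = s := (hp _).1 j.2
      have hij : i = j := Subtype.ext (hi.trans hj.symm)
      subst hij
      rw [one_apply_eq, toSquareBlockProp_def, of_apply, hN, hi, updateRow_self, Pi.single_eq_same]
    have h4 : (N.toSquareBlockProp (fun i => ¬ p i)) = M.toSquareBlockProp (fun i => ¬ p i) := by
      ext i j
      have hi : (i : Fin n) ≠ s := fun h => i.2 ((hp _).2 h)
      rw [toSquareBlockProp_def, of_apply, hN, updateRow_ne hi, toSquareBlockProp_def, of_apply]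
    rw [h3, h4, det_one, one_mul]
  · intro i hi j hj
    have hi' : i = s := (hp _).1 hi
    have hj' : j ≠ s := fun h => hj ((hp _).2 h)
    rw [hN, hi', updateRow_self, Pi.single_eq_of_ne hj']

theorem DELb : DEL_stmt := by
  classical
  intro n G s
  constructor
  · unfold chp Matrix.charpoly
    let e : ((∅ : Set (Fin n))ᶜ : Set (Fin n)) ≃ Fin n :=
      (Equiv.setCongr Set.compl_empty).trans (Equiv.Set.univ _)
    have he : ∀ k : ((∅ : Set (Fin n))ᶜ : Set (Fin n)), e k = k.1 := fun k => rfl
    refine DJI_det_eq _ _ _ _ e _ _ fun i j => ?_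
    rw [DJI_cm, DJI_cm]
    refine congrArg₂ (fun a b => a - b) ?_ ?_
    · by_cases hij : i = j
      · subst hij
        rw [diagonal_apply_eq, diagonal_apply_eq]
      · rw [diagonal_apply_ne _ hij, diagonal_apply_ne _ (fun hh => hij (e.injective hh))]
    · refine congrArg _ ?_
      rw [SimpleGraph.adjMatrix_apply]
      unfold adj
      simp only [SimpleGraph.comap_adj, he, Function.Embedding.subtype_apply]
  · obtain ⟨p, hp⟩ : ∃ p : Fin n → Prop, ∀ i, p i ↔ i = s := ⟨fun i => i = s, fun i => Iff.rfl⟩
    rw [DELb_gen _ s p hp]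
    unfold chp Matrix.charpoly
    let e : {i : Fin n // ¬ p i} ≃ (({s} : Set (Fin n))ᶜ : Set (Fin n)) :=
      Equiv.subtypeEquivRight (by intro x; rw [hp]; simp)
    have he : ∀ k : {i : Fin n // ¬ p i}, ((e k : _) : Fin n) = k.1 := fun k => rfl
    refine (DJI_det_eq _ _ _ _ e _ _ fun i j => ?_).symm
    rw [toSquareBlockProp_def, of_apply, DJI_cm, DJI_cm]
    refine congrArg₂ (fun a b => a - b) ?_ ?_
    · by_cases hij : i = j
      · subst hij
        rw [diagonal_apply_eq, diagonal_apply_eq]
      · rw [diagonal_apply_ne, diagonal_apply_ne]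
        · exact fun hh => hij (e.injective hh)
        · exact fun hh => hij (Subtype.ext hh)
    · refine congrArg _ ?_
      rw [SimpleGraph.adjMatrix_apply]
      unfold adj
      simp only [SimpleGraph.comap_adj, he, Function.Embedding.subtype_apply]

end Pool.Agent.FS
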