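import Pool.Agent.helper42.NS.Main

/-!
# MP_abccb5_co, project FS (few spectra): definitions

ALMOST ALL GRAPHS ARE DETERMINED BY O(log² n) SPECTRA. Page: `/team-store/C6_MP_abccb5_fewspectra_helper87.md`.
The definitions and rows of the landed project NS of helper42 are used (`bord`, `ind`, `dotb`, `EigK`, `Pt`, `KP`, `lamP`, `Above`, `crk`,
`Bad`, `Kry`, `IsGr`, `PP`).
-/

set_option autoImplicit false

namespace Pool.Agent.FS

open Polynomial Matrix Pool.Agent.helper42.NS

/-- The solutions `u` of `H u = lam u` over `K` which are orthogonal to the marks `B i`. -/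
def EM (K : Type*) [CommRing K] (lam : K) {t k : ℕ} (H : Matrix (Fin t) (Fin t) ℤ)
    (B : Fin k → Fin t → Bool) : Submodule K (Fin t → K) where
  carrier := {u | u ∈ EigK K lam H ∧ ∀ i, dotb (B i) u = 0}
  add_mem' := by
    rintro a b ⟨ha, ha'⟩ ⟨hb, hb'⟩
    refine ⟨(EigK K lam H).add_mem ha hb, fun i => ?_⟩
    have h : dotb (B i) (a + b) = dotb (B i) a + dotb (B i) b := by
      unfold dotb
      rw [← Finset.sum_add_distrib]
      refine Finset.sum_congr rfl fun j _ => ?_
      split_ifs <;> simp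
    rw [h, ha' i, hb' i, add_zero]
  zero_mem' := by
    refine ⟨(EigK K lam H).zero_mem, fun i => ?_⟩
    unfold dotb
    simp
  smul_mem' := by
    rintro c a ⟨ha, ha'⟩
    refine ⟨(EigK K lam H).smul_mem c ha, fun i => ?_⟩
    have h : dotb (B i) (c • a) = c * dotb (B i) a := by
      unfold dotb
      rw [Finset.mul_sum]
      refine Finset.sum_congr rfl fun j _ => ?_
      split_ifs <;> simp
    rw [h, ha' i, mul_zero]

theorem mem_EM {K : Type*} [CommRing K] {lam : K} {t k : ℕ} {H : Matrix (Fin t) (Fin t) ℤ}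
    {B : Fin k → Fin t → Bool} {u : Fin t → K} :
    u ∈ EM K lam H B ↔ u ∈ EigK K lam H ∧ ∀ i, dotb (B i) u = 0 := Iff.rfl

/-- The dimension of `EM` at the point `P`. -/
noncomputable def crm (P : Pt) {t k : ℕ} (H : Matrix (Fin t) (Fin t) ℤ) (B : Fin k → Fin t → Bool) : ℕ :=
  Module.finrank (KP P) (EM (KP P) (lamP P) H B)

/-- A BIRTH: there is a vector `(1, v)` in the space `EM` of the graph `bord H (ind b)` (apart from its first equation) and the marks `(z i, B i)`. -/
def Bth (K : Type*) [CommRing K] (lam : K) {t k : ℕ} (H : Matrix (Fin t) (Fin t) ℤ)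
    (B : Fin k → Fin t → Bool) (b : Fin t → Bool) (z : Fin k → Bool) : Prop :=
  ∃ v : Fin t → K, (∀ j, ∑ i, (H j i : K) * v i + (if b j then 1 else 0) = lam * v j) ∧
    ∀ i, dotb (B i) v + (if z i then 1 else 0) = 0

/-- The marks with a new first coordinate. -/
def cz {t k : ℕ} (z : Fin k → Bool) (B : Fin k → Fin t → Bool) : Fin k → Fin (t + 1) → Bool :=
  fun i => Fin.cons (z i) (B i)

/-- Removal of the first vertex. -/
def trH {t : ℕ} (H : Matrix (Fin (t + 1)) (Fin (t + 1)) ℤ) : Matrix (Fin t) (Fin t) ℤ :=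
  fun i j => H i.succ j.succ

/-- Removal of the first vertex, marks. -/
def trB {t k : ℕ} (B : Fin k → Fin (t + 1) → Bool) : Fin k → Fin t → Bool := fun i j => B i j.succ

/-- The first `ka` marks. -/
def fst' {t : ℕ} (ka kb : ℕ) (B : Fin (ka + kb) → Fin t → Bool) : Fin ka → Fin t → Bool :=
  fun i => B (Fin.castAdd kb i)

/-- The stage is good: dimension at most 1 above 2 for the first marks, no bad point above 2, dimension at most 1 everywhere. -/
def G0 (ka kb : ℕ) {t : ℕ} (H : Matrix (Fin t) (Fin t) ℤ) (B : Fin (ka + kb) → Fin t → Bool) : Prop :=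
  (∀ P : Pt, Above 2 P → crm P H (fst' ka kb B) ≤ 1) ∧ (∀ P : Pt, Above 2 P → ¬ Bad P H B) ∧
    ∀ P : Pt, crm P H B ≤ 1

/-- All stages are good. -/
def GG (ka kb : ℕ) : (t : ℕ) → Matrix (Fin t) (Fin t) ℤ → (Fin (ka + kb) → Fin t → Bool) → Prop
  | 0, _, _ => True
  | t + 1, H, B => GG ka kb t (trH H) (trB B) ∧ G0 ka kb H B

/-- The adjacency matrix of the graph. -/
noncomputable def adj {n : ℕ} (G : SimpleGraph (Fin n)) : Matrix (Fin n) (Fin n) ℤ :=
  fun i j => by classical exact if G.Adj i j then 1 else 0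

open Classical in
/-- The characteristic polynomial of the adjacency matrix of the graph `G - R` (the vertices in `R` are deleted). -/
noncomputable def chp {n : ℕ} (G : SimpleGraph (Fin n)) (R : Set (Fin n)) : ℤ[X] :=
  ((G.induce Rᶜ).adjMatrix ℤ).charpoly

/-- `G` is determined by the characteristic polynomials of `G` and of the graphs `G - s`, `G - {s, s'}` (`s, s' ∈ S`): for every graph `H` and
every map `u` of `S` into the vertices of `H` such that the characteristic polynomials of `H`, `H - u s`, `H - {u s, u s'}` are the same, `u` extends to an isomorphism. -/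
def Det {n : ℕ} (S : Finset (Fin n)) (G : SimpleGraph (Fin n)) : Prop :=
  ∀ (H : SimpleGraph (Fin n)) (u : S → Fin n), chp G ∅ = chp H ∅ →
    (∀ s s' : S, chp G {(s : Fin n), (s' : Fin n)} = chp H {u s, u s'}) →
    ∃ φ : G ≃g H, ∀ s : S, φ s = u s

/-- The unit vectors of the set `S`. -/
def uv {n : ℕ} (S : Set (Fin n)) : Set (Fin n → ℤ) := {v | ∃ s ∈ S, v = Pi.single s 1}

end Pool.Agent.FS
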