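import Pool.Agent.helper87.FS.Spec
import Pool.Agent.helper96.FS.BCR
import Pool.Agent.helper50.FS.CMK
import Pool.Agent.helper43.FS.CNB
import Pool.Agent.helper16.FS.CST
import Pool.Agent.helper29.FS.CXF
import Pool.Agent.helper8.FS.DJI
import Pool.Agent.helper87.FS.DEL
import Pool.Agent.helper25.FS.CGR
import Pool.Agent.helper11.FS.EV1
import Pool.Agent.helper18.FS.EV2
import Pool.Agent.helper48.FS.KLG
import Pool.Agent.helper3.FS.KRA
import Pool.Agent.helper41.FS.KRY
import Pool.Agent.helper22.FS.MOS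
import Pool.Agent.helper42.FS.MVT
import Pool.Agent.helper35.FS.OD2
import Pool.Agent.helper89.FS.ORT
import Pool.Agent.helper72.FS.REL
import Pool.Agent.helper51.FS.RGS
import Pool.Agent.helper9.FS.STG
import Pool.Agent.helper72.FS.TOT

set_option autoImplicit false

namespace Pool.Agent.FS

open Polynomial Matrix Pool.Agent.helper42.NS

theorem T_CNB : CNB_stmt := CNB OD2
theorem T_STG : STG_stmt := STG T_CNB MVT
theorem T_KLG : KLG_stmt := KLG ORT
theorem T_CST : CST_stmt := CST CXF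
theorem T_CMK : CMK_stmt := CMK CXF
theorem T_EV1 : EV1_stmt := EV1 BCR T_STG T_CST CXF
theorem T_EV2 : EV2_stmt := EV2 BCR T_KLG T_CMK CXF
theorem T_TOT : TOT_stmt := TOT CXF T_CST T_EV1 T_EV2 BCR
theorem T_KRY : KRY_stmt := KRY CXF T_TOT T_EV2 T_CMK BCR

/-- the theorem -/
theorem main : FIN_stmt := FIN (REL (CGR T_KRY KRA CXF)) (MOS DELb DJI) RGS

end Pool.Agent.FS
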