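import Pool.Agent.helper87.FS.Defs

/-!
# MP_abccb5_co, project FS: ALMOST ALL GRAPHS ARE DETERMINED BY O(log² n) SPECTRA, rows

Page: `/team-store/C6_MP_abccb5_fewspectra_helper87.md`.

RULES. Row `fs:XXX`: file `Pool/Agent/<seat>/FS/XXX.lean`, `import Pool.Agent.helper87.FS.Spec`, `set_option autoImplicit false`,
`namespace Pool.Agent.FS`, `open Polynomial Matrix Pool.Agent.helper42.NS`, auxiliary lemmas prefixed `XXX_`, theorem line as in the lock note (other rows
only as hypotheses). No straight double quotes, no `convert`, `congr!`, `native_decide`. The proved rows of NS may be used: `ODL`, `T_KIL`, `VTX`, `PBH`, `PTP`, `T_DT1`,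
`T_PTS`, `RIG` (with `RIG_move`, `RIG_span`, `RIG_unit`), `ADJ`, `T_MO2`, `mem_EigK`. The fields are `KP P = ℤ[X] ⧸ P.asIdeal`: use `letI := Ideal.Quotient.field P.asIdeal`
(`haveI := P.isMaximal`) inside proofs, as in the NS rows; `EigK`, `EM`, `crm`, `Bad` are stated for the commutative ring structure.
-/

set_option autoImplicit false

namespace Pool.Agent.FS

open Polynomial Matrix Pool.Agent.helper42.NS

/-! ## Block 1: linear algebra over fields -/

/-- **OD2** (short-medium). A subspace `W` of dimension `d` contains at most `2 ^ d` vectors with entries `0, 1`. Proof: choose a set `J` of `d` coordinates such that the restriction `W → K^J` is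
injective (or induction on the number of coordinates as in `ODL`); a `0/1` vector of `W` is determined by its coordinates in `J`. (Or from `ODL`: `E = {u | ∀ w ∈ W, ∑ u i * w i = 0}` has dimension
`N - d`, and a `0/1` vector of `W` is orthogonal to `E`.) -/
def OD2_stmt : Prop := ∀ (K : Type) [Field K] (N : ℕ) (W : Submodule K (Fin N → K)),
  Set.ncard {b : Fin N → Bool | (fun i => if b i then (1 : K) else 0) ∈ W} ≤ 2 ^ Module.finrank K W

/-- **CNB** (medium; from OD2). The number of births. Proof: the pairs `(b, z)` with `Bth` correspond (`Fin.append`, `(Fin t → Bool) × (Fin k → Bool) ≃ (Fin (t + k) → Bool)`) to `0/1` vectors in the range `W` of the linear map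
`K^t → K^(t + k)`, `v ↦ (lam v - H v, - dotb (B i) v)`, whose kernel is `EM`: `finrank W = t - finrank EM`. OD2 gives `ncard ≤ 2 ^ (t - finrank EM)`. -/
def CNB_stmt : Prop := ∀ (K : Type) [Field K] (lam : K) (t k : ℕ) (H : Matrix (Fin t) (Fin t) ℤ) (B : Fin k → Fin t → Bool),
  Set.ncard {bz : (Fin t → Bool) × (Fin k → Bool) | Bth K lam H B bz.1 bz.2} * 2 ^ (k + Module.finrank K (EM K lam H B)) ≤ 2 ^ (t + k)

/-- **MVT** (medium; compare `VTX`). Adding a vertex. A vector of `EM` of `(bord H (ind b), cz z B)` is `Fin.cons c v` with `dotb b v = lam c`, `b_j c + ∑ i, H j i v i = lam v_j`, `(if z i then c else 0) + dotb (B i) v = 0`. The kernel of `(c, v) ↦ c` embeds into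
`EM K lam H B` (`(0, v) ↦ v`), so the dimension is at most one more. If some `c ≠ 0`, divide by `c`: `Bth`. So without birth `(c, v) ↦ v` embeds the space into `EM K lam H B`. -/
def MVT_stmt : Prop := ∀ (K : Type) [Field K] (lam : K) (t k : ℕ) (H : Matrix (Fin t) (Fin t) ℤ) (B : Fin k → Fin t → Bool) (b : Fin t → Bool) (z : Fin k → Bool),
  Module.finrank K (EM K lam (bord H (ind b)) (cz z B)) ≤ Module.finrank K (EM K lam H B) + 1 ∧
  (¬ Bth K lam H B b z → Module.finrank K (EM K lam (bord H (ind b)) (cz z B)) ≤ Module.finrank K (EM K lam H B))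

/-- **ORT** (short; from `T_KIL` with `E = span {u}`, `finrank_span_singleton`). -/
def ORT_stmt : Prop := ∀ (K : Type) [Field K] (t k : ℕ) (u : Fin t → K), u ≠ 0 →
  Set.ncard {W : Fin k → Fin t → Bool | ∀ i, dotb (W i) u = 0} * 2 ^ k ≤ 2 ^ (t * k)

/-! ## Block 2: points -/

/-- **BCR** (short). `EM = ⊥` iff its dimension is `0` (a field, finite dimension). `EM` for the marks `B` is contained in that of fewer marks and in `EigK` (`crm ≤ crk`, for the last parts). `t = 0`: the space `Fin 0 → KP P` is trivial. -/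
def BCR_stmt : Prop := (∀ (P : Pt) (t k : ℕ) (H : Matrix (Fin t) (Fin t) ℤ) (B : Fin k → Fin t → Bool), Bad P H B ↔ crm P H B ≠ 0) ∧
  (∀ (P : Pt) (t k : ℕ) (H : Matrix (Fin t) (Fin t) ℤ) (B : Fin k → Fin t → Bool), crm P H B ≤ crk P H) ∧
  (∀ (P : Pt) (k : ℕ) (H : Matrix (Fin 0) (Fin 0) ℤ) (B : Fin k → Fin 0 → Bool), crm P H B = 0)

/-- **STG** (medium; from CNB, MVT). The step. If `(b, z)` is in the set and `P` is a point with `Q P`, `1 < crm P (bord ..)`, then by MVT (first part) `crm P H B = 1` and by MVT (second part) `Bth (KP P) (lamP P) H B b z`. The points with `Q P` and `crm P H B ≠ 0` form a finite set `F` (every finite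
subset has at most `M` elements) with at most `M` elements, and for each of them the number of `(b, z)` with `Bth`, times `2 ^ (k + 1)`, is at most `2 ^ (t + k)` (CNB). Union bound (`Set.ncard_le_ncard`, `Finset` biUnion). -/
def STG_stmt : Prop := ∀ (t k M : ℕ) (H : Matrix (Fin t) (Fin t) ℤ) (B : Fin k → Fin t → Bool) (Q : Pt → Prop), (∀ P, Q P → crm P H B ≤ 1) →
  (∀ s : Finset Pt, (∀ P ∈ s, Q P ∧ crm P H B ≠ 0) → s.card ≤ M) →
  Set.ncard {bz : (Fin t → Bool) × (Fin k → Bool) | ∃ P, Q P ∧ 1 < crm P (bord H (ind bz.1)) (cz bz.2 B)} * 2 ^ (k + 1) ≤ M * 2 ^ (t + k)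

/-- **KLG** (medium; from ORT). Killing. The points with `Q P` and `crm P H B ≠ 0` form a finite set with at most `M` elements; for each of them `EM` is one-dimensional, spanned by some `u ≠ 0`; if a nonzero vector of `EM` is orthogonal to all `W i`, so is `u`. ORT and union bound. -/
def KLG_stmt : Prop := ∀ (t k k' M : ℕ) (H : Matrix (Fin t) (Fin t) ℤ) (B : Fin k → Fin t → Bool) (Q : Pt → Prop), (∀ P, Q P → crm P H B ≤ 1) →
  (∀ s : Finset Pt, (∀ P ∈ s, Q P ∧ crm P H B ≠ 0) → s.card ≤ M) →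
  Set.ncard {W : Fin k' → Fin t → Bool | ∃ P, Q P ∧ ∃ u ∈ EM (KP P) (lamP P) H B, u ≠ 0 ∧ ∀ i, dotb (W i) u = 0} * 2 ^ k' ≤ M * 2 ^ (t * k')

/-! ## Block 3: counting -/

/-- **CXF** (medium). The number of the pairs (adjacency matrix, marks). Proof: induction on `t` with the bijection `((H, B), (b, z)) ↦ (bord H (ind b), cz z B)` (inverse: `trH`, `trB`, and the first row), or directly. -/
def CXF_stmt : Prop := ∀ t k : ℕ, {HB : Matrix (Fin t) (Fin t) ℤ × (Fin k → Fin t → Bool) | IsGr HB.1}.Finite ∧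
  Set.ncard {HB : Matrix (Fin t) (Fin t) ℤ × (Fin k → Fin t → Bool) | IsGr HB.1} = 2 ^ (t.choose 2 + k * t)

/-- **CST** (medium; from CXF for finiteness). One more vertex. The map `((H, B), (b, z)) ↦ (bord H (ind b), cz z B)` is a bijection of `{IsGr} × (all (b, z))` onto `{IsGr}` at stage `t + 1` (an adjacency matrix `H'` is `bord (trH H') (ind b)` with `b j = decide (H' 0 j.succ = 1)`), and
`trH (bord H v) = H`, `trB (cz z B) = B`. Count the set on the left fibre by fibre: over each `(H, B)` with `Ψ H B` there are at most `d / c` pairs `(b, z)`. -/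
def CST_stmt : Prop := ∀ (t k c d : ℕ) (Ψ : Matrix (Fin t) (Fin t) ℤ → (Fin k → Fin t → Bool) → Prop)
  (Φ : Matrix (Fin (t + 1)) (Fin (t + 1)) ℤ → (Fin k → Fin (t + 1) → Bool) → Prop),
  (∀ H B, IsGr H → Ψ H B → Set.ncard {bz : (Fin t → Bool) × (Fin k → Bool) | Φ (bord H (ind bz.1)) (cz bz.2 B)} * c ≤ d) →
  Set.ncard {HB : Matrix (Fin (t + 1)) (Fin (t + 1)) ℤ × (Fin k → Fin (t + 1) → Bool) | IsGr HB.1 ∧ Ψ (trH HB.1) (trB HB.2) ∧ Φ HB.1 HB.2} * c ≤
    Set.ncard {HB : Matrix (Fin t) (Fin t) ℤ × (Fin k → Fin t → Bool) | IsGr HB.1 ∧ Ψ HB.1 HB.2} * d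

/-- **CMK** (medium; from CXF for finiteness). More marks. `(H, B) ↦ ((H, first ka marks), last kb marks)` is a bijection (`Fin.append`); count fibre by fibre. -/
def CMK_stmt : Prop := ∀ (t ka kb c d : ℕ) (Ψ : Matrix (Fin t) (Fin t) ℤ → (Fin ka → Fin t → Bool) → Prop)
  (Φ : Matrix (Fin t) (Fin t) ℤ → (Fin (ka + kb) → Fin t → Bool) → Prop),
  (∀ H B, IsGr H → Ψ H B → Set.ncard {W : Fin kb → Fin t → Bool | Φ H (Fin.append B W)} * c ≤ d) →
  Set.ncard {HB : Matrix (Fin t) (Fin t) ℤ × (Fin (ka + kb) → Fin t → Bool) | IsGr HB.1 ∧ Ψ HB.1 (fst' ka kb HB.2) ∧ Φ HB.1 HB.2} * c ≤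
    Set.ncard {HB : Matrix (Fin t) (Fin t) ℤ × (Fin ka → Fin t → Bool) | IsGr HB.1 ∧ Ψ HB.1 HB.2} * d

/-- **EV1** (short-medium; from BCR, STG, CST, CXF). EVENT 1 (and the same scheme EVENT 3). First part: `Ψ H B` = all `P` above 2 have `crm P H (fst' ..) ≤ 1`; STG for the marks `fst' ka kb B`, `Q = Above 2`, `M = t` (`PTP` with `p = 2`, `crm ≤ crk`): for fixed `(H, B)` the number of `(b, z)` is
`2 ^ kb` times that of `(b, first ka coordinates of z)` (`fst' (cz z B) = cz (z ∘ castAdd) (fst' B)`), so `ncard * 2 ^ (ka + 1) ≤ t * 2 ^ (t + ka) * 2 ^ kb`. Second part: `Ψ H B` = no bad point above 2 and all `crm ≤ 1`; STG with `Q = True`, `M = 2 ^ (4 L + 1)` (`T_PTS`, BCR). -/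
def EV1_stmt : Prop := ∀ ka kb t L : ℕ, t ≤ 2 ^ L →
  (Set.ncard {HB : Matrix (Fin (t + 1)) (Fin (t + 1)) ℤ × (Fin (ka + kb) → Fin (t + 1) → Bool) | IsGr HB.1 ∧
    (∀ P : Pt, Above 2 P → crm P (trH HB.1) (fst' ka kb (trB HB.2)) ≤ 1) ∧ ¬ (∀ P : Pt, Above 2 P → crm P HB.1 (fst' ka kb HB.2) ≤ 1)} * 2 ^ (ka + 1) ≤
      t * 2 ^ ((t + 1).choose 2 + (ka + kb) * (t + 1))) ∧
  (Set.ncard {HB : Matrix (Fin (t + 1)) (Fin (t + 1)) ℤ × (Fin (ka + kb) → Fin (t + 1) → Bool) | IsGr HB.1 ∧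
    ((∀ P : Pt, Above 2 P → ¬ Bad P (trH HB.1) (trB HB.2)) ∧ ∀ P : Pt, crm P (trH HB.1) (trB HB.2) ≤ 1) ∧ ¬ (∀ P : Pt, crm P HB.1 HB.2 ≤ 1)} * 2 ^ (ka + kb + 1) ≤
      2 ^ (4 * L + 1) * 2 ^ ((t + 1).choose 2 + (ka + kb) * (t + 1)))

/-- **EV2** (short-medium; from BCR, KLG, CMK, CXF). EVENT 2 and EVENT 4. First part: CMK with `Ψ` = all `P` above 2 have `crm ≤ 1`, KLG with `Q = Above 2`, `M = t` (`PTP`, `crm ≤ crk`); `Bad P H (Fin.append B W)` iff some nonzero `u ∈ EM .. H B` has `dotb (W i) u = 0` for all `i`. Second part: the same with `ka = k`, `kb = k'`,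
`Q = True`, `M = 2 ^ (4 L + 1)` (`T_PTS`, BCR). The number of pairs is CXF. -/
def EV2_stmt : Prop := ∀ ka kb t L : ℕ, t ≤ 2 ^ L →
  (Set.ncard {HB : Matrix (Fin t) (Fin t) ℤ × (Fin (ka + kb) → Fin t → Bool) | IsGr HB.1 ∧
    (∀ P : Pt, Above 2 P → crm P HB.1 (fst' ka kb HB.2) ≤ 1) ∧ ∃ P : Pt, Above 2 P ∧ Bad P HB.1 HB.2} * 2 ^ kb ≤ t * 2 ^ (t.choose 2 + (ka + kb) * t)) ∧
  (Set.ncard {HB : Matrix (Fin t) (Fin t) ℤ × (Fin (ka + kb) → Fin t → Bool) | IsGr HB.1 ∧
    ((∀ P : Pt, Above 2 P → ¬ Bad P HB.1 (fst' ka kb HB.2)) ∧ ∀ P : Pt, crm P HB.1 (fst' ka kb HB.2) ≤ 1) ∧ ∃ P : Pt, Bad P HB.1 HB.2} * 2 ^ kb ≤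
      2 ^ (4 * L + 1) * 2 ^ (t.choose 2 + (ka + kb) * t))

/-- **TOT** (medium; from CXF, CST, EV1, EV2). All stages up to `m ≤ 2 ^ L`, `ka = kb = 3 L`. Induction on `t ≤ 2 ^ L`: `ncard {IsGr ∧ ¬ GG t} * 2 ^ (2 L + 1) ≤ 5 t 2 ^ (t.choose 2 + 6 L t)`. Step: if `GG (t + 1)` fails then `GG t` fails for the truncation (CST with `Φ = True`, `Ψ = ¬ GG`, `c = 1`, `d = 2 ^ (t + k)`) or, the
truncation being good (for `t = 0` all `crm` are 0, BCR), one of the three parts of `G0` fails: the first (EV1, first part: `G0` of the truncation gives the hypothesis; `t 2 ^ (-3 L - 1) ≤ 2 ^ (-2 L - 1)`), the second but not the first (EV2, first part, with `t + 1 ≤ 2 ^ L`: `2 ^ (-2 L)`), the third (EV1, second part: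
`2 ^ (4 L + 1 - 6 L - 1) = 2 ^ (-2 L)`). Note: for `t ≥ 1` `GG t` of the truncation contains its `G0`. -/
def TOT_stmt : Prop := ∀ L m : ℕ, m ≤ 2 ^ L →
  Set.ncard {HB : Matrix (Fin m) (Fin m) ℤ × (Fin (3 * L + 3 * L) → Fin m → Bool) | IsGr HB.1 ∧ ¬ GG (3 * L) (3 * L) m HB.1 HB.2} * 2 ^ (2 * L + 1) ≤
    5 * m * 2 ^ (m.choose 2 + (3 * L + 3 * L) * m)

/-- **KRY** (medium; from CXF, TOT, EV2, CMK, BCR). Almost always the lattice is everything. If `Kry H (range of ind (B i)) ≠ ⊤` then some point is bad for all marks (`PBH`; `∑ (ind b j : KP P) * u j = dotb b u`). Either `GG` fails for the first `6 L` marks (TOT, and CMK with `Φ = True`: at most `5 m 2 ^ (-2 L - 1) ≤ (5/2) 2 ^ (-L)`), or (for `m ≥ 1`; `m = 0` is trivial)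
`G0` holds at stage `m` and EV2 (second part) with `ka = 6 L`, `kb = 5 L`: `2 ^ (4 L + 1 - 5 L) = 2 * 2 ^ (-L)`. Total `(9/2) 2 ^ (-L)`. -/
def KRY_stmt : Prop := ∀ L m : ℕ, m ≤ 2 ^ L →
  Set.ncard {HB : Matrix (Fin m) (Fin m) ℤ × (Fin (3 * L + 3 * L + 5 * L) → Fin m → Bool) | IsGr HB.1 ∧ Kry HB.1 (Set.range fun i => ind (HB.2 i)) ≠ ⊤} * 2 ^ (L + 1) ≤
    9 * 2 ^ (m.choose 2 + (3 * L + 3 * L + 5 * L) * m)

/-! ## Block 4: graphs with marked vertices -/

/-- **KRA** (medium). Let `A` be the adjacency matrix of a graph on `k + m` vertices, `H` its lower right block, `B i` the row of the vertex `i < k` in the last `m` columns. If `Kry H (ind B_i) = ⊤` then the lattice generated by the `A ^ l e_i`, `i < k`, is everything. Proof: call it `Λ`; it is stable under `A` and contains `e_i`, `i < k`.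
`A e_i = (C e_i, ind B_i)` and `(C e_i, 0)` is a combination of the `e_j`, `j < k`, so `(0, ind B_i) ∈ Λ`. If `(0, v) ∈ Λ` then `A (0, v) = (B v, H v)`, so `(0, H v) ∈ Λ`. So `(0, v) ∈ Λ` for all `v` in `Kry H .. = ⊤`. -/
def KRA_stmt : Prop := ∀ (k m : ℕ) (A : Matrix (Fin (k + m)) (Fin (k + m)) ℤ), IsGr A →
  Kry (fun i j : Fin m => A (Fin.natAdd k i) (Fin.natAdd k j)) (Set.range fun i : Fin k => ind fun j : Fin m => decide (A (Fin.castAdd m i) (Fin.natAdd k j) = 1)) = ⊤ →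
  Kry A (uv (Set.range (Fin.castAdd m))) = ⊤

/-- **CGR** (medium; from KRY, KRA, CXF). The graphs on `k + m` vertices, `k = 11 L`, with the first `k` vertices marked. `G ↦ adj G` is injective with values in `IsGr`; an adjacency matrix `A` on `Fin (k + m)` is determined by its blocks `C = A[k, k]` (`2 ^ (k.choose 2)` possibilities, CXF with no marks), `H` and the rows
`B i`. If `Kry (adj G) (uv ..) ≠ ⊤` then (KRA) `(H, B)` is in the set of KRY. So the number, times `2 ^ (L + 1)`, is at most `2 ^ (k.choose 2) * 9 * 2 ^ (m.choose 2 + k m) = 9 * 2 ^ ((k + m).choose 2)` (`Nat.add_choose_two` or similar). -/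
def CGR_stmt : Prop := ∀ L m : ℕ, m ≤ 2 ^ L →
  Nat.card {G : SimpleGraph (Fin (3 * L + 3 * L + 5 * L + m)) // Kry (adj G) (uv (Set.range (Fin.castAdd m))) ≠ ⊤} * 2 ^ (L + 1) ≤
    9 * 2 ^ ((3 * L + 3 * L + 5 * L + m).choose 2)

/-- **REL** (medium; from CGR). Any set `S` of marks. Let `n ≥ 1`, `L = Nat.clog 2 n` (so `n ≤ 2 ^ L`), `11 L ≤ S.card`. Take `S' ⊆ S` with `11 L` elements, `m = n - 11 L`, and a bijection `Fin (11 L + m) ≃ Fin n` which maps the first `11 L` elements onto `S'`. It induces a bijection of the graphs (`SimpleGraph.map`/`comap`, `Equiv.simpleGraph`) and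
`Kry (adj G) (uv S') = ⊤` iff the same holds for the graph on `Fin (11 L + m)` (the matrices and vectors are reindexed). `Kry` is monotone in the set of vectors. `n * .. ≤ 2 ^ L * ..`, `9 / 2 ≤ 5`. -/
def REL_stmt : Prop := ∀ (n : ℕ) (S : Finset (Fin n)), 11 * Nat.clog 2 n ≤ S.card →
  n * Nat.card {G : SimpleGraph (Fin n) // Kry (adj G) (uv (S : Set (Fin n))) ≠ ⊤} ≤ 5 * 2 ^ (n.choose 2)

/-! ## Block 5: rigidity -/

/-- **DEL** (medium). The characteristic polynomial of `G - s` is the diagonal entry of the adjugate of `X - A`. `adjugate M s s = det (M.updateRow s (Pi.single s 1))` (`Matrix.adjugate_apply`) `= det` of the submatrix without the row and the column `s` (reindex by `Fin n ≃ {s} ⊕ {s}ᶜ`, `Matrix.det_fromBlocks_zero₁₂` or `zero₂₁`; or `Matrix.det_succ_row`-like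
expansion, or `Matrix.twoBlockTriangular_det`); the adjacency matrix of `G.induce {s}ᶜ` is the submatrix of that of `G`. `chp G ∅ = (adj G).charpoly` (`Rᶜ = univ`, reindex: `Matrix.charpoly_reindex`). -/
def DEL_stmt : Prop := ∀ (n : ℕ) (G : SimpleGraph (Fin n)) (s : Fin n),
  chp G ∅ = (adj G).charpoly ∧ chp G {s} = Matrix.adjugate (charmatrix (adj G)) s s

/-- **DJI** (medium). Desnanot-Jacobi for two vertices `s ≠ s'`. With `M = charmatrix (adj G)`, `D = det M`, let `N` be the identity matrix with the columns `s`, `s'` replaced by those of `adjugate M`. `det N = P_ss P_s's' - P_ss' P_s's` (`P = adjugate M`). `M N` is `M` with the columns `s`, `s'` replaced by `D e_s`, `D e_s'`, so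
`det (M N) = D ^ 2 * det (M without the rows and columns s, s')`, and this minor is `chp G {s, s'}` (as in DEL). Cancel `D ≠ 0` (`ℤ[X]` is a domain, `D` is monic). `P_ss' = P_s's` as `M` is symmetric (`Matrix.adjugate_transpose`). -/
def DJI_stmt : Prop := ∀ (n : ℕ) (G : SimpleGraph (Fin n)) (s s' : Fin n), s ≠ s' →
  (adj G).charpoly * chp G {s, s'} = Matrix.adjugate (charmatrix (adj G)) s s * Matrix.adjugate (charmatrix (adj G)) s' s' -
    Matrix.adjugate (charmatrix (adj G)) s s' ^ 2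

/-- **MOS** (medium; from DEL, DJI). The characteristic polynomials determine the numbers of walks. `u` is injective: the degree of `chp G {s, s'}` is the number of vertices not in `{s, s'}`. `PP (adj G) (Pi.single s 1) (Pi.single s' 1) = adjugate (charmatrix (adj G)) s s'`. For `s = s'`: DEL, and `T_MO2` with `e = 1`. For `s ≠ s'`: by DJI the squares of the entries
agree, so `PP = ± PP'`, and `T_MO2` with `e = ± 1` gives `(A ^ l) s s' = ± (A' ^ l) (u s) (u s')` with the same sign for all `l`; both are `≥ 0` (nonnegative entries), so they are equal. -/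
def MOS_stmt : Prop := ∀ (n : ℕ) (S : Finset (Fin n)) (G H : SimpleGraph (Fin n)) (u : S → Fin n), chp G ∅ = chp H ∅ →
  (∀ s s' : S, chp G {(s : Fin n), (s' : Fin n)} = chp H {u s, u s'}) →
  ∀ (s s' : S) (l : ℕ), (adj G ^ l) s s' = (adj H ^ l) (u s) (u s')

/-- **RGS** (medium; compare `RIG`). Rigidity. Write `e_a = ∑ c_(a,s,l) A ^ l e_s` (`s ∈ S`, finite integer combination, as `Kry A (uv S) = ⊤`) and `w_a = ∑ c_(a,s,l) A' ^ l e_(u s)`. The inner products of the vectors `A ^ l e_s` and `A' ^ l e_(u s)` agree, so `⟨w_a, w_b⟩ = ⟨e_a, e_b⟩`, `⟨w_a, A' w_b⟩ = A a b`. So `w_a = ± e_(σ a)`, `σ` a permutation,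
and `A' (σ a) (σ b) = ± A a b`, both in `{0, 1}`. For `s ∈ S`: `|w_s - e_(u s)|² = 1 - 2 ⟨e_s, e_s⟩ + 1 = 0`, so `σ s = u s`. -/
def RGS_stmt : Prop := ∀ (n : ℕ) (S : Finset (Fin n)) (A A' : Matrix (Fin n) (Fin n) ℤ) (u : S → Fin n), IsGr A → IsGr A' →
  Kry A (uv (S : Set (Fin n))) = ⊤ → (∀ (s s' : S) (l : ℕ), (A ^ l) s s' = (A' ^ l) (u s) (u s')) →
  ∃ σ : Equiv.Perm (Fin n), (∀ a b, A' (σ a) (σ b) = A a b) ∧ ∀ s : S, σ s = u s

/-- the theorem -/
def FIN_stmt : Prop := ∀ (n : ℕ) (S : Finset (Fin n)), 11 * Nat.clog 2 n ≤ S.card →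
  n * Nat.card {G : SimpleGraph (Fin n) // ¬ Det S G} ≤ 5 * 2 ^ (n.choose 2)

theorem FIN (h1 : REL_stmt) (h2 : MOS_stmt) (h3 : RGS_stmt) : FIN_stmt := by
  classical
  intro n S hS
  refine le_trans (Nat.mul_le_mul_left n ?_) (h1 n S hS)
  refine Nat.card_le_card_of_injective (fun G => ⟨G.1, fun hK => G.2 ?_⟩) ?_
  · intro H u h0 hu
    have hgr : ∀ G : SimpleGraph (Fin n), IsGr (adj G) := by
      intro G
      refine ⟨fun i j => ?_, fun i => ?_, fun i j => ?_⟩
      · unfold adj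
        split_ifs
        · exact Or.inr rfl
        · exact Or.inl rfl
      · unfold adj
        rw [if_neg (G.loopless.irrefl i)]
      · unfold adj
        rw [G.adj_comm]
    obtain ⟨σ, hσ, hS'⟩ := h3 n S (adj G.1) (adj H) u (hgr _) (hgr _) hK (h2 n S G.1 H u h0 hu)
    refine ⟨⟨σ, ?_⟩, hS'⟩
    intro a b
    have h := hσ a b
    unfold adj at h
    by_cases h1 : H.Adj (σ a) (σ b) <;> by_cases h2 : G.1.Adj a b <;> simp_all
  · intro G G' h
    have h' := congrArg Subtype.val h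
    exact Subtype.ext h'

end Pool.Agent.FS
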